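import Pool.Agent.H63.CF.Grow

/-! Conservative forced maps (problem MP_43af95_an): chains with small kicks between any two points. -/

set_option autoImplicit false

open MeasureTheory Set Filter Topology Function

namespace Pool.Agent.H63.CF

/-- the orbit of `y` which starts at time `i`, with the kicks `w` -/
def orb {m : ℕ} (g : ℕ → Tm m → Tm m) (w : ℕ → Fin m → ℝ) (i : ℕ) (y : Tm m) : ℕ → Tm m
  | 0 => y
  | n + 1 => g (i + n) (orb g w i y n) + pm (w (i + n))

theorem orb_congr {m : ℕ} (g : ℕ → Tm m → Tm m) (w w' : ℕ → Fin m → ℝ) (i : ℕ) (y : Tm m)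
    (n : ℕ) (h : ∀ j, i ≤ j → j < i + n → w j = w' j) : orb g w i y n = orb g w' i y n := by
  induction n with
  | zero => rfl
  | succ n ih =>
    show g (i + n) (orb g w i y n) + pm (w (i + n)) = g (i + n) (orb g w' i y n) + pm (w' (i + n))
    rw [ih (fun j h1 h2 => h j h1 (by omega)), h (i + n) (by omega) (by omega)]

theorem orb_add {m : ℕ} (g : ℕ → Tm m → Tm m) (w : ℕ → Fin m → ℝ) (i : ℕ) (y : Tm m)
    (n n' : ℕ) : orb g w i y (n + n') = orb g w (i + n) (orb g w i y n) n' := by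
  induction n' with
  | zero => rfl
  | succ n' ih =>
    show g (i + (n + n')) (orb g w i y (n + n')) + pm (w (i + (n + n'))) =
      g (i + n + n') (orb g w (i + n) (orb g w i y n) n') + pm (w (i + n + n'))
    rw [ih, add_assoc]

/-- `z` is reached from `y` between the times `i` and `i + n`, with kicks of size at most `κ` -/
def Rch {m : ℕ} (g : ℕ → Tm m → Tm m) (κ : ℝ) (i n : ℕ) (y z : Tm m) : Prop :=
  ∃ w : ℕ → Fin m → ℝ, (∀ j l, |w j l| ≤ κ) ∧ orb g w i y n = z

theorem Rch.trans {m : ℕ} {g : ℕ → Tm m → Tm m} {κ : ℝ} {i n n' : ℕ} {y z z' : Tm m}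
    (h : Rch g κ i n y z) (h' : Rch g κ (i + n) n' z z') : Rch g κ i (n + n') y z' := by
  obtain ⟨w, hw, rfl⟩ := h
  obtain ⟨w', hw', rfl⟩ := h'
  refine ⟨fun j => if j < i + n then w j else w' j, fun j l => ?_, ?_⟩
  · by_cases hj : j < i + n
    · simp only [hj, if_true]
      exact hw j l
    · simp only [hj, if_false]
      exact hw' j l
  · rw [orb_add]
    have h1 : orb g (fun j => if j < i + n then w j else w' j) i y n = orb g w i y n :=
      orb_congr _ _ _ _ _ _ (fun j _ hj => by simp only [hj, if_true])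
    rw [h1]
    refine orb_congr _ _ _ _ _ _ (fun j hj _ => ?_)
    have : ¬ j < i + n := by omega
    simp only [this, if_false]

theorem Rch.one {m : ℕ} {g : ℕ → Tm m → Tm m} {κ : ℝ} {i : ℕ} {y : Tm m} (s : Fin m → ℝ)
    (hs : ∀ l, |s l| ≤ κ) : Rch g κ i 1 y (g i y + pm s) :=
  ⟨fun _ => s, fun _ l => hs l, rfl⟩

/-- the box around a point -/
def box {m : ℕ} (y : Tm m) (r : ℝ) : Set (Tm m) := Set.univ.pi fun l => Metric.closedBall (y l) r

theorem box_meas {m : ℕ} (y : Tm m) (r : ℝ) : MeasurableSet (box y r) :=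
  MeasurableSet.univ_pi fun _ => Metric.isClosed_closedBall.measurableSet

theorem box_vol {m : ℕ} (y : Tm m) (N : ℕ) (hN : 1 ≤ N) :
    volume.real (box y (1 / (2 * N))) = (1 / (N:ℝ)) ^ m := by
  have hN0 : (1:ℝ) ≤ N := by exact_mod_cast hN
  have h1 : volume (box y (1 / (2 * N))) = ∏ _l : Fin m, ENNReal.ofReal (1 / (N:ℝ)) := by
    unfold box
    rw [volume_pi_pi]
    refine Finset.prod_congr rfl fun l _ => ?_
    rw [AddCircle.volume_closedBall]
    congr 1
    have : 2 * (1 / (2 * (N:ℝ))) = 1 / N := by field_simp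
    rw [this]
    apply min_eq_right
    rw [div_le_one (by linarith)]
    exact hN0
  rw [Measure.real, h1, Finset.prod_const, Finset.card_univ, Fintype.card_fin,
    ENNReal.toReal_pow, ENNReal.toReal_ofReal (by positivity)]

theorem box_mem {m : ℕ} {y z : Tm m} {N : ℕ} (hN : 1 ≤ N) (h : z ∈ box y (1 / (2 * N))) :
    ∃ s : Fin m → ℝ, (∀ l, |s l| ≤ 1 / N) ∧ z = y + pm s := by
  have hN0 : (1:ℝ) ≤ N := by exact_mod_cast hN
  have h1 : ∀ l, ∃ t : ℝ, |t| ≤ 1 / N ∧ z l = y l + (t : UnitAddCircle) := by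
    intro l
    have h2 : ‖z l - y l‖ ≤ 1 / (2 * N) := by
      have := h l (mem_univ l)
      rwa [Metric.mem_closedBall, dist_eq_norm] at this
    obtain ⟨t, ht⟩ : ∃ t : ℝ, (t : UnitAddCircle) = z l - y l :=
      QuotientAddGroup.mk_surjective (z l - y l)
    refine ⟨t - round t, ?_, ?_⟩
    · rw [← ht, AddCircle.norm_eq] at h2
      simp only [inv_one, one_mul, mul_one] at h2
      refine h2.trans ?_
      apply div_le_div_of_nonneg_left zero_le_one (by linarith)
      linarith
    · rw [AddCircle.coe_sub, ht]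
      have : ((round t : ℝ) : UnitAddCircle) = 0 := by
        rw [AddCircle.coe_eq_zero_iff]
        exact ⟨round t, by simp⟩
      rw [this, sub_zero, add_sub_cancel]
  choose s hs1 hs2 using h1
  exact ⟨s, hs1, funext fun l => hs2 l⟩

theorem box_symm {m : ℕ} {y z : Tm m} {r : ℝ} (h : z ∈ box y r) : y ∈ box z r := by
  intro l hl
  have := h l hl
  rw [Metric.mem_closedBall] at this ⊢
  rwa [dist_comm]

/-- large, or growing exponentially -/
def Big {m : ℕ} (N n : ℕ) (S : Set (Tm m)) : Prop :=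
  1 / 2 < volume.real S ∨ (1 / (N:ℝ)) ^ m * (1 + 1 / (2 * N)) ^ (n - 1) ≤ volume.real S

theorem big_step {m : ℕ} {N n : ℕ} (hN : 1 ≤ N) (hn : 1 ≤ n) {S : Set (Tm m)}
    (hS : MeasurableSet S) (h : Big N n S) : ∃ s : Fin m → ℝ, (∀ l, |s l| ≤ 1 / N) ∧
      Big N (n + 1) (S ∪ (fun y => pm s + y) '' S) := by
  have hN0 : (0:ℝ) < N := by exact_mod_cast hN
  obtain ⟨s, hs, hg⟩ := grow_step hS N hN
  refine ⟨s, hs, ?_⟩
  have h1 : volume.real S ≤ 1 := by
    have := measureReal_le_one (μ := (volume : Measure (Tm m))) (s := S)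
    exact this
  have h0 : 0 ≤ volume.real S := measureReal_nonneg
  have h2 : 0 ≤ volume.real S * (1 - volume.real S) / N := by
    have : 0 ≤ 1 - volume.real S := by linarith
    positivity
  by_cases h3 : 1 / 2 < volume.real S
  · left
    linarith
  · right
    have h4 := h.resolve_left h3
    push Not at h3
    have h5 : volume.real S * (1 / (2 * N)) ≤ volume.real S * (1 - volume.real S) / N := by
      have e1 : volume.real S * (1 / (2 * N)) = volume.real S * (1 / 2) / N := by
        field_simp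
      rw [e1]
      apply div_le_div_of_nonneg_right _ hN0.le
      apply mul_le_mul_of_nonneg_left _ h0
      linarith
    obtain ⟨k, rfl⟩ : ∃ k, n = k + 1 := ⟨n - 1, by omega⟩
    have e2 : k + 1 - 1 = k := by omega
    have e3 : k + 1 + 1 - 1 = k + 1 := by omega
    rw [e2] at h4
    rw [e3, pow_succ]
    calc (1 / (N:ℝ)) ^ m * ((1 + 1 / (2 * N)) ^ k * (1 + 1 / (2 * N)))
        = ((1 / (N:ℝ)) ^ m * (1 + 1 / (2 * N)) ^ k) * (1 + 1 / (2 * N)) := by ring
      _ ≤ volume.real S * (1 + 1 / (2 * N)) :=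
          mul_le_mul_of_nonneg_right h4 (by positivity)
      _ = volume.real S + volume.real S * (1 / (2 * N)) := by ring
      _ ≤ _ := by linarith

theorem big_large {m N n j : ℕ} (hN : 1 ≤ N) (hj : N ^ m ≤ 2 ^ j) (hn : 1 + 2 * N * j ≤ n)
    {S : Set (Tm m)} (h : Big N n S) : 1 / 2 < volume.real S := by
  rcases h with h | h
  · exact h
  · have hN0 : (0:ℝ) < N := by exact_mod_cast hN
    have h1 : (2:ℝ) ≤ (1 + 1 / (2 * N)) ^ (2 * N) := by
      have h2 := one_add_mul_le_pow (a := 1 / (2 * (N:ℝ))) (by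
        have : 0 ≤ 1 / (2 * (N:ℝ)) := by positivity
        linarith) (2 * N)
      have h3 : 1 + ((2 * N : ℕ) : ℝ) * (1 / (2 * N)) = 2 := by
        push_cast
        field_simp
        norm_num
      linarith
    have h4 : (2:ℝ) ^ j ≤ (1 + 1 / (2 * N)) ^ (n - 1) := by
      calc (2:ℝ) ^ j ≤ ((1 + 1 / (2 * N)) ^ (2 * N)) ^ j := pow_le_pow_left₀ (by norm_num) h1 j
        _ = (1 + 1 / (2 * (N:ℝ))) ^ (2 * N * j) := by rw [← pow_mul]
        _ ≤ _ := by
          apply pow_le_pow_right₀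
          · have : 0 ≤ 1 / (2 * (N:ℝ)) := by positivity
            linarith
          · omega
    have h5 : ((N:ℝ)) ^ m ≤ 2 ^ j := by exact_mod_cast hj
    have h6 : 1 ≤ (1 / (N:ℝ)) ^ m * (1 + 1 / (2 * N)) ^ (n - 1) := by
      calc (1:ℝ) = (1 / (N:ℝ)) ^ m * (N:ℝ) ^ m := by
            rw [← mul_pow]
            have : 1 / (N:ℝ) * N = 1 := by field_simp
            rw [this, one_pow]
        _ ≤ (1 / (N:ℝ)) ^ m * (1 + 1 / (2 * N)) ^ (n - 1) :=
            mul_le_mul_of_nonneg_left (h5.trans h4) (by positivity)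
    linarith

theorem vol_homeo {m : ℕ} (g : Tm m ≃ₜ Tm m) (hg : MeasurePreserving g volume volume)
    (S : Set (Tm m)) (hS : MeasurableSet S) :
    MeasurableSet (g '' S) ∧ volume.real (g '' S) = volume.real S := by
  have h1 : g '' S = g.symm ⁻¹' S := g.image_eq_preimage_symm S
  have h2 : MeasurableSet (g.symm ⁻¹' S) := g.symm.continuous.measurable hS
  refine ⟨by rw [h1]; exact h2, ?_⟩
  have h3 := hg.measure_preimage (s := g '' S) (by rw [h1]; exact h2.nullMeasurableSet)
  rw [g.injective.preimage_image] at h3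
  rw [Measure.real, Measure.real, h3]

/-- the points reached forward -/
theorem forward {m : ℕ} (g : ℕ → (Tm m ≃ₜ Tm m))
    (hg : ∀ j, MeasurePreserving (g j) volume volume) (N : ℕ) (hN : 1 ≤ N) (i : ℕ) (y : Tm m) :
    ∀ n, 1 ≤ n → ∃ S : Set (Tm m), MeasurableSet S ∧ Big N n S ∧
      ∀ z ∈ S, Rch (fun j => g j) (1 / N) i n y z := by
  intro n hn
  induction n, hn using Nat.le_induction with
  | base =>
    refine ⟨box (g i y) (1 / (2 * N)), box_meas _ _, Or.inr ?_, fun z hz => ?_⟩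
    · rw [box_vol _ _ hN]
      simp
    · obtain ⟨s, hs, rfl⟩ := box_mem hN hz
      exact Rch.one s hs
  | succ n hn ih =>
    obtain ⟨S, hS, hB, hR⟩ := ih
    obtain ⟨hS', hv⟩ := vol_homeo (g (i + n)) (hg _) S hS
    have hB' : Big N n (g (i + n) '' S) := by
      unfold Big at hB ⊢
      rwa [hv]
    obtain ⟨s, hs, hB2⟩ := big_step hN hn hS' hB'
    have hN0 : (0:ℝ) ≤ 1 / N := by positivity
    refine ⟨_, hS'.union (meas_image hS' (pm s)), hB2, ?_⟩
    rintro z (⟨u, hu, rfl⟩ | ⟨_, ⟨u, hu, rfl⟩, rfl⟩)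
    · have h1 : g (i + n) u = g (i + n) u + pm (0 : Fin m → ℝ) := by rw [pm_zero, add_zero]
      rw [h1]
      exact (hR u hu).trans (Rch.one 0 (fun l => by simp))
    · have h1 : pm s + g (i + n) u = g (i + n) u + pm s := add_comm _ _
      show Rch _ _ _ _ _ (pm s + g (i + n) u)
      rw [h1]
      exact (hR u hu).trans (Rch.one s hs)

/-- the points from which a given point is reached -/
theorem backward {m : ℕ} (g : ℕ → (Tm m ≃ₜ Tm m))
    (hg : ∀ j, MeasurePreserving (g j) volume volume) (N : ℕ) (hN : 1 ≤ N) (y : Tm m) :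
    ∀ n, 1 ≤ n → ∀ i, ∃ S : Set (Tm m), MeasurableSet S ∧ Big N n S ∧
      ∀ z ∈ S, Rch (fun j => g j) (1 / N) i n z y := by
  have hsymm : ∀ j, MeasurePreserving (g j).symm volume volume := fun j =>
    MeasurePreserving.symm (g j).toMeasurableEquiv (hg j)
  intro n hn
  induction n, hn using Nat.le_induction with
  | base =>
    intro i
    obtain ⟨hS', hv⟩ := vol_homeo (g i).symm (hsymm _) (box y (1 / (2 * N))) (box_meas _ _)
    refine ⟨_, hS', Or.inr ?_, ?_⟩
    · rw [hv, box_vol _ _ hN]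
      simp
    · rintro z ⟨u, hu, rfl⟩
      obtain ⟨s, hs, h1⟩ := box_mem hN (box_symm hu)
      rw [h1]
      have h2 : u + pm s = g i ((g i).symm u) + pm s := by rw [(g i).apply_symm_apply]
      rw [h2]
      exact Rch.one s hs
  | succ n hn ih =>
    intro i
    obtain ⟨S, hS, hB, hR⟩ := ih (i + 1)
    obtain ⟨s, hs, hB2⟩ := big_step hN hn hS hB
    have hN0 : (0:ℝ) ≤ 1 / N := by positivity
    obtain ⟨hS', hv⟩ := vol_homeo (g i).symm (hsymm _) _ (hS.union (meas_image hS (pm s)))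
    refine ⟨_, hS', ?_, ?_⟩
    · unfold Big at hB2 ⊢
      rwa [hv]
    · rintro z ⟨u, hu, rfl⟩
      have key : ∀ t : Fin m → ℝ, (∀ l, |t l| ≤ 1 / N) → u + pm t ∈ S →
          Rch (fun j => g j) (1 / N) i (n + 1) ((g i).symm u) y := by
        intro t ht hu'
        have h1 := hR _ hu'
        have h2 : Rch (fun j => g j) (1 / (N:ℝ)) i 1 ((g i).symm u) (u + pm t) := by
          have h3 : u + pm t = g i ((g i).symm u) + pm t := by rw [(g i).apply_symm_apply]
          rw [h3]
          exact Rch.one t ht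
        have h4 := h2.trans h1
        rwa [add_comm 1 n] at h4
      rcases hu with hu | ⟨b, hb, hbu⟩
      · exact key 0 (fun l => by simp) (by rw [pm_zero, add_zero]; exact hu)
      · refine key (-s) (fun l => by simpa using hs l) ?_
        have h1 : u + pm (-s) = b := by
          rw [← hbu, pm_neg]
          simp
        rw [h1]
        exact hb

/-- any two points are joined by a chain with small kicks -/
theorem chain {m : ℕ} (g : ℕ → (Tm m ≃ₜ Tm m))
    (hg : ∀ j, MeasurePreserving (g j) volume volume) (N j q : ℕ) (hN : 1 ≤ N)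
    (hj : N ^ m ≤ 2 ^ j) (hq : 2 + 4 * N * j ≤ q) (y z : Tm m) :
    Rch (fun j => g j) (1 / N) 0 q y z := by
  obtain ⟨q1, rfl⟩ : ∃ q1, q = (1 + 2 * N * j) + q1 := ⟨q - (1 + 2 * N * j), by
    have : 4 * N * j = 2 * N * j + 2 * N * j := by ring
    omega⟩
  have hq1 : 1 + 2 * N * j ≤ q1 := by
    have : 4 * N * j = 2 * N * j + 2 * N * j := by ring
    omega
  obtain ⟨S, hS, hSB, hSR⟩ := forward g hg N hN 0 y (1 + 2 * N * j) (by omega)
  obtain ⟨S', hS', hSB', hSR'⟩ := backward g hg N hN z q1 (by omega) (0 + (1 + 2 * N * j))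
  have h1 := big_large hN hj le_rfl hSB
  have h2 := big_large hN hj hq1 hSB'
  have h3 : (S ∩ S').Nonempty := by
    rw [nonempty_iff_ne_empty]
    intro h4
    have h5 : Disjoint S S' := disjoint_iff_inter_eq_empty.2 h4
    have h6 := measureReal_union (μ := (volume : Measure (Tm m))) h5 hS'
    have h7 : volume.real (S ∪ S') ≤ 1 := measureReal_le_one
    linarith
  obtain ⟨u, hu, hu'⟩ := h3
  exact (hSR u hu).trans (hSR' u hu')

end Pool.Agent.H63.CF
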