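import Mathlib

/-! Conservative forced maps (problem MP_43af95_an): smooth periodic functions with prescribed values
on a separated set. -/

set_option autoImplicit false

open Set Filter Topology Function
open scoped ContDiff

namespace Pool.Agent.H63.CF

/-- the nearest lattice point -/
noncomputable def rd {k : ℕ} (x : Fin k → ℝ) : Fin k → ℝ := fun i => (round (x i) : ℝ)

/-- the integer vectors -/
def IsZ {k : ℕ} (z : Fin k → ℝ) : Prop := ∀ i, ∃ n : ℤ, z i = (n : ℝ)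

theorem rd_isZ {k : ℕ} (x : Fin k → ℝ) : IsZ (rd x) := fun i => ⟨round (x i), rfl⟩

theorem IsZ.add {k : ℕ} {z w : Fin k → ℝ} (h : IsZ z) (h' : IsZ w) : IsZ (z + w) := by
  intro i
  obtain ⟨a, ha⟩ := h i
  obtain ⟨b, hb⟩ := h' i
  exact ⟨a + b, by rw [Pi.add_apply, ha, hb]; push_cast; ring⟩

theorem IsZ.neg {k : ℕ} {z : Fin k → ℝ} (h : IsZ z) : IsZ (-z) := by
  intro i
  obtain ⟨a, ha⟩ := h i
  exact ⟨-a, by rw [Pi.neg_apply, ha]; push_cast; ring⟩

theorem IsZ.sub {k : ℕ} {z w : Fin k → ℝ} (h : IsZ z) (h' : IsZ w) : IsZ (z - w) := by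
  rw [sub_eq_add_neg]
  exact h.add h'.neg

theorem rd_add {k : ℕ} (x z : Fin k → ℝ) (hz : IsZ z) : rd (x + z) = rd x + z := by
  funext i
  obtain ⟨n, hn⟩ := hz i
  unfold rd
  rw [Pi.add_apply, Pi.add_apply, hn, round_add_intCast]
  push_cast
  ring

/-- a point at distance less than one half of a lattice point -/
theorem rd_eq {k : ℕ} {x z : Fin k → ℝ} (hz : IsZ z) (h : ‖x - z‖ < 1 / 2) : rd x = z := by
  funext i
  obtain ⟨n, hn⟩ := hz i
  have h1 : |x i - n| < 1 / 2 := by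
    have h2 := norm_le_pi_norm (x - z) i
    rw [Pi.sub_apply, hn, Real.norm_eq_abs] at h2
    linarith
  unfold rd
  rw [hn]
  congr 1
  rw [round_eq, Int.floor_eq_iff]
  rw [abs_lt] at h1
  constructor <;> linarith [h1.1, h1.2]

/-- The basic bump: `χ 0 = 1`, supported in the ball of radius `1/4`. -/
theorem exists_chi (k r : ℕ) : ∃ (χ : (Fin k → ℝ) → ℝ) (C : ℝ), 1 ≤ C ∧ ContDiff ℝ ∞ χ ∧ χ 0 = 1 ∧
    (∀ x, 1 / 4 < ‖x‖ → χ x = 0) ∧ ∀ i ≤ r, ∀ x, ‖iteratedFDeriv ℝ i χ x‖ ≤ C := by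
  obtain ⟨f⟩ : Nonempty (ContDiffBump (0 : Fin k → ℝ)) := ⟨⟨1 / 8, 1 / 4, by norm_num, by norm_num⟩⟩
  let f : ContDiffBump (0 : Fin k → ℝ) := ⟨1 / 8, 1 / 4, by norm_num, by norm_num⟩
  have hf : ContDiff ℝ ∞ (f : (Fin k → ℝ) → ℝ) := f.contDiff
  have hb : ∀ i : ℕ, ∃ C : ℝ, ∀ x, ‖iteratedFDeriv ℝ i (f : (Fin k → ℝ) → ℝ) x‖ ≤ C := by
    intro i
    have hc : Continuous (iteratedFDeriv ℝ i (f : (Fin k → ℝ) → ℝ)) :=
      hf.continuous_iteratedFDeriv (by exact_mod_cast le_top)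
    have hs : HasCompactSupport (iteratedFDeriv ℝ i (f : (Fin k → ℝ) → ℝ)) :=
      f.hasCompactSupport.iteratedFDeriv i
    obtain ⟨C, hC⟩ := hs.exists_bound_of_continuous hc
    exact ⟨C, hC⟩
  choose C hC using hb
  refine ⟨f, 1 + ∑ i ∈ Finset.range (r + 1), |C i|, ?_, hf, ?_, ?_, ?_⟩
  · have : 0 ≤ ∑ i ∈ Finset.range (r + 1), |C i| := Finset.sum_nonneg fun i _ => abs_nonneg _
    linarith
  · exact f.one_of_mem_closedBall (by simp; norm_num)
  · intro x hx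
    apply f.zero_of_le_dist
    rw [dist_zero_right]
    exact hx.le
  · intro i hi x
    have h1 : |C i| ≤ ∑ i ∈ Finset.range (r + 1), |C i| :=
      Finset.single_le_sum (f := fun i => |C i|) (fun i _ => abs_nonneg _)
        (Finset.mem_range.2 (by omega))
    have := le_abs_self (C i)
    linarith [hC i x]

/-- the periodic bump of radius `R / 4` -/
noncomputable def PB {k : ℕ} (χ : (Fin k → ℝ) → ℝ) (R : ℝ) (x : Fin k → ℝ) : ℝ :=
  χ (R⁻¹ • (x - rd x))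

theorem scaled_zero {k : ℕ} {χ : (Fin k → ℝ) → ℝ} (hχ : ∀ x, 1 / 4 < ‖x‖ → χ x = 0) {R : ℝ}
    (hR : 0 < R) {v : Fin k → ℝ} (hv : R / 4 < ‖v‖) : χ (R⁻¹ • v) = 0 := by
  apply hχ
  rw [norm_smul, norm_inv, Real.norm_eq_abs, abs_of_pos hR, ← div_eq_inv_mul, lt_div_iff₀ hR]
  linarith

theorem PB_local {k : ℕ} {χ : (Fin k → ℝ) → ℝ} (hχ : ∀ x, 1 / 4 < ‖x‖ → χ x = 0) {R : ℝ}
    (hR : 0 < R) (hR1 : R ≤ 1) (x : Fin k → ℝ) :
    PB χ R =ᶠ[𝓝 x] fun y => χ (R⁻¹ • (y - rd x)) := by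
  have h1 : ∀ᶠ y in 𝓝 x, ‖y - x‖ < 1 / 16 := by
    have : Metric.ball x (1 / 16) ∈ 𝓝 x := Metric.ball_mem_nhds x (by norm_num)
    filter_upwards [this] with y hy
    rwa [Metric.mem_ball, dist_eq_norm] at hy
  have h2 : ‖x - rd x‖ ≤ 1 / 2 := by
    rw [pi_norm_le_iff_of_nonneg (by norm_num)]
    intro i
    exact abs_sub_round (x i)
  filter_upwards [h1] with y hy
  unfold PB
  by_cases ha : ‖y - rd y‖ ≤ R / 4
  · -- then `rd x = rd y`
    have h3 : rd x = rd y := by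
      apply rd_eq (rd_isZ y)
      have e1 : x - rd y = -(y - x) + (y - rd y) := by abel
      rw [e1]
      refine (norm_add_le _ _).trans_lt ?_
      rw [norm_neg]
      linarith
    rw [h3]
  · push Not at ha
    by_cases hb : ‖y - rd x‖ ≤ R / 4
    · have h3 : rd y = rd x := by
        apply rd_eq (rd_isZ x)
        linarith
      rw [h3]
    · push Not at hb
      rw [scaled_zero hχ hR ha, scaled_zero hχ hR hb]

theorem PB_smooth {k : ℕ} {χ : (Fin k → ℝ) → ℝ} (hc : ContDiff ℝ ∞ χ)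
    (hχ : ∀ x, 1 / 4 < ‖x‖ → χ x = 0) {R : ℝ} (hR : 0 < R) (hR1 : R ≤ 1) :
    ContDiff ℝ ∞ (PB χ R) := by
  rw [contDiff_iff_contDiffAt]
  intro x
  have h1 : ContDiff ℝ ∞ (fun y : Fin k → ℝ => χ (R⁻¹ • (y - rd x))) :=
    hc.comp ((contDiff_id.sub contDiff_const).const_smul R⁻¹)
  exact h1.contDiffAt.congr_of_eventuallyEq (PB_local hχ hR hR1 x)

theorem PB_bound {k r : ℕ} {χ : (Fin k → ℝ) → ℝ} {C : ℝ} (hc : ContDiff ℝ ∞ χ)
    (hχ : ∀ x, 1 / 4 < ‖x‖ → χ x = 0)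
    (hC : ∀ i ≤ r, ∀ x, ‖iteratedFDeriv ℝ i χ x‖ ≤ C) (hC0 : 0 ≤ C) {R : ℝ} (hR : 0 < R)
    (hR1 : R ≤ 1) (i : ℕ) (hi : i ≤ r) (x : Fin k → ℝ) :
    ‖iteratedFDeriv ℝ i (PB χ R) x‖ ≤ C * R⁻¹ ^ r := by
  have h1 := (PB_local hχ hR hR1 x).iteratedFDeriv ℝ i
  rw [h1.eq_of_nhds]
  have h2 : (fun y : Fin k → ℝ => χ (R⁻¹ • (y - rd x))) =
      fun y => (χ ∘ (R⁻¹ • ContinuousLinearMap.id ℝ (Fin k → ℝ) :
        (Fin k → ℝ) →L[ℝ] (Fin k → ℝ))) (y - rd x) := by
    funext y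
    simp
  rw [h2, iteratedFDeriv_comp_sub, ContinuousLinearMap.iteratedFDeriv_comp_right _ hc _
    (by exact_mod_cast le_top)]
  refine (ContinuousMultilinearMap.norm_compContinuousLinearMap_le _ _).trans ?_
  have h3 : ‖(R⁻¹ • ContinuousLinearMap.id ℝ (Fin k → ℝ) : (Fin k → ℝ) →L[ℝ] (Fin k → ℝ))‖ ≤
      R⁻¹ := by
    rw [norm_smul, norm_inv, Real.norm_eq_abs, abs_of_pos hR]
    exact mul_le_of_le_one_right (by positivity) ContinuousLinearMap.norm_id_le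
  have h4 : ∏ _j : Fin i, ‖(R⁻¹ • ContinuousLinearMap.id ℝ (Fin k → ℝ) :
      (Fin k → ℝ) →L[ℝ] (Fin k → ℝ))‖ ≤ R⁻¹ ^ r := by
    rw [Finset.prod_const, Finset.card_univ, Fintype.card_fin]
    refine (pow_le_pow_left₀ (norm_nonneg _) h3 i).trans ?_
    exact pow_le_pow_right₀ ((one_le_inv₀ hR).2 hR1) hi
  exact mul_le_mul (hC i hi _) h4 (Finset.prod_nonneg fun _ _ => norm_nonneg _) hC0

theorem PB_periodic {k : ℕ} (χ : (Fin k → ℝ) → ℝ) (R : ℝ) (x z : Fin k → ℝ) (hz : IsZ z) :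
    PB χ R (x + z) = PB χ R x := by
  unfold PB
  rw [rd_add x z hz]
  congr 2
  abel

theorem PB_far {k : ℕ} {χ : (Fin k → ℝ) → ℝ} (hχ : ∀ x, 1 / 4 < ‖x‖ → χ x = 0) {R : ℝ}
    (hR : 0 < R) (hR1 : R ≤ 1) {x : Fin k → ℝ} (hx : R / 4 < ‖x - rd x‖) :
    PB χ R =ᶠ[𝓝 x] fun _ => 0 := by
  have h1 : ∀ᶠ y in 𝓝 x, R / 4 < ‖y - rd x‖ := by
    have hcont : Continuous (fun y : Fin k → ℝ => ‖y - rd x‖) :=
      (continuous_id.sub continuous_const).norm
    exact hcont.continuousAt.eventually_const_lt hx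
  filter_upwards [h1, PB_local hχ hR hR1 x] with y hy hy2
  rw [hy2]
  exact scaled_zero hχ hR hy

/-- A smooth periodic function with prescribed values on a separated set. -/
theorem exists_force (k m r : ℕ) : ∃ C : ℝ, 1 ≤ C ∧ ∀ (q : ℕ) (b : ℕ → Fin k → ℝ)
    (w : ℕ → Fin m → ℝ) (R κ : ℝ), 0 < R → R ≤ 1 → 0 ≤ κ →
    (∀ j < q, ∀ l < q, j ≠ l → ∀ z, IsZ z → R ≤ ‖b j - b l - z‖) → (∀ j, ∀ i, |w j i| ≤ κ) →
    ∃ v : (Fin k → ℝ) → (Fin m → ℝ), ContDiff ℝ ∞ v ∧ (∀ x z, IsZ z → v (x + z) = v x) ∧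
      (∀ i ≤ r, ∀ x, ‖iteratedFDeriv ℝ i v x‖ ≤ C * R⁻¹ ^ r * κ) ∧ ∀ j < q, v (b j) = w j := by
  obtain ⟨χ, C, hC1, hc, hχ1, hχ, hC⟩ := exists_chi k r
  have hC0 : 0 ≤ C := by linarith
  refine ⟨C, hC1, ?_⟩
  intro q b w R κ hR hR1 hκ hsep hw
  have hRr : 0 ≤ C * R⁻¹ ^ r * κ := by positivity
  have hwn : ∀ j, ‖w j‖ ≤ κ := fun j =>
    (pi_norm_le_iff_of_nonneg hκ).2 fun i => by rw [Real.norm_eq_abs]; exact hw j i
  obtain ⟨u, hu⟩ : ∃ u : ℕ → (Fin k → ℝ) → (Fin m → ℝ),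
      u = fun j x => PB χ R (x - b j) • w j := ⟨_, rfl⟩
  have hus : ∀ j, ContDiff ℝ ∞ (u j) := by
    intro j
    rw [hu]
    exact ((PB_smooth hc hχ hR hR1).comp (contDiff_id.sub contDiff_const)).smul contDiff_const
  have hub : ∀ j, ∀ i ≤ r, ∀ x, ‖iteratedFDeriv ℝ i (u j) x‖ ≤ C * R⁻¹ ^ r * κ := by
    intro j i hi x
    have h1 : u j = (((ContinuousLinearMap.id ℝ ℝ).smulRight (w j) : ℝ →L[ℝ] (Fin m → ℝ)) ∘
        (fun x => PB χ R (x - b j))) := by
      rw [hu]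
      funext y
      simp
    have h2 : ContDiff ℝ ∞ (fun x => PB χ R (x - b j)) :=
      (PB_smooth hc hχ hR hR1).comp (contDiff_id.sub contDiff_const)
    rw [h1]
    refine (ContinuousLinearMap.norm_iteratedFDeriv_comp_left _ h2.contDiffAt
      (by exact_mod_cast le_top)).trans ?_
    rw [iteratedFDeriv_comp_sub]
    have h3 : ‖((ContinuousLinearMap.id ℝ ℝ).smulRight (w j) : ℝ →L[ℝ] (Fin m → ℝ))‖ ≤ κ := by
      rw [ContinuousLinearMap.norm_smulRight_apply]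
      calc ‖ContinuousLinearMap.id ℝ ℝ‖ * ‖w j‖ ≤ 1 * κ :=
            mul_le_mul ContinuousLinearMap.norm_id_le (hwn j) (norm_nonneg _) zero_le_one
        _ = κ := one_mul κ
    calc _ ≤ κ * (C * R⁻¹ ^ r) :=
          mul_le_mul h3 (PB_bound hc hχ hC hC0 hR hR1 i hi _) (norm_nonneg _) hκ
      _ = _ := by ring
  have hfar : ∀ j x, R / 4 < ‖x - b j - rd (x - b j)‖ → u j =ᶠ[𝓝 x] fun _ => 0 := by
    intro j x hx
    have h1 := PB_far hχ hR hR1 hx
    have h2 : Tendsto (fun y => y - b j) (𝓝 x) (𝓝 (x - b j)) :=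
      (continuous_id.sub continuous_const).continuousAt
    filter_upwards [h2.eventually h1] with y hy
    rw [hu]
    simp only
    rw [hy, zero_smul]
  refine ⟨fun x => ∑ j ∈ Finset.range q, u j x, ContDiff.sum fun j _ => hus j, ?_, ?_, ?_⟩
  · intro x z hz
    refine Finset.sum_congr rfl fun j _ => ?_
    rw [hu]
    simp only
    have h1 : x + z - b j = (x - b j) + z := by abel
    rw [h1, PB_periodic χ R _ z hz]
  · intro i hi x
    by_cases hne : ∃ j < q, ‖x - b j - rd (x - b j)‖ ≤ R / 4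
    · obtain ⟨j, hj, hjx⟩ := hne
      have h1 : ∀ l ∈ Finset.range q, l ≠ j → u l =ᶠ[𝓝 x] fun _ => 0 := by
        intro l hl hlj
        apply hfar
        by_contra hcon
        push Not at hcon
        have h2 := hsep j hj l (Finset.mem_range.1 hl) (Ne.symm hlj)
          (rd (x - b l) - rd (x - b j)) ((rd_isZ _).sub (rd_isZ _))
        have e1 : b j - b l - (rd (x - b l) - rd (x - b j)) =
            (x - b l - rd (x - b l)) - (x - b j - rd (x - b j)) := by abel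
        rw [e1] at h2
        have h3 := norm_sub_le (x - b l - rd (x - b l)) (x - b j - rd (x - b j))
        linarith
      have h2 : (fun x => ∑ j ∈ Finset.range q, u j x) =ᶠ[𝓝 x] u j := by
        have h3 : ∀ᶠ y in 𝓝 x, ∀ l ∈ Finset.range q, l ≠ j → u l y = 0 := by
          rw [Filter.eventually_all_finset]
          intro l hl
          by_cases hlj : l = j
          · exact Eventually.of_forall fun y h => absurd hlj h
          · filter_upwards [h1 l hl hlj] with y hy _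
            exact hy
        filter_upwards [h3] with y hy
        exact Finset.sum_eq_single j (fun l hl hlj => hy l hl hlj)
          (fun h => absurd (Finset.mem_range.2 hj) h)
      rw [(h2.iteratedFDeriv ℝ i).eq_of_nhds]
      exact hub j i hi x
    · push Not at hne
      have h2 : (fun x => ∑ j ∈ Finset.range q, u j x) =ᶠ[𝓝 x] fun _ => (0 : Fin m → ℝ) := by
        have h3 : ∀ᶠ y in 𝓝 x, ∀ l ∈ Finset.range q, u l y = 0 := by
          rw [Filter.eventually_all_finset]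
          intro l hl
          exact hfar l x (hne l (Finset.mem_range.1 hl))
        filter_upwards [h3] with y hy
        exact Finset.sum_eq_zero hy
      rw [(h2.iteratedFDeriv ℝ i).eq_of_nhds]
      have h3 : iteratedFDeriv ℝ i (fun _ : Fin k → ℝ => (0 : Fin m → ℝ)) x = 0 := by
        simp
      rw [h3, norm_zero]
      exact hRr
  · intro j hj
    show ∑ l ∈ Finset.range q, u l (b j) = w j
    rw [Finset.sum_eq_single j]
    · rw [hu]
      simp only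
      have h1 : PB χ R (b j - b j) = 1 := by
        unfold PB
        have h2 : rd (b j - b j) = 0 := by
          apply rd_eq (fun i => ⟨0, by simp⟩)
          simp
        rw [h2, sub_self, sub_zero, smul_zero, hχ1]
      rw [h1, one_smul]
    · intro l hl hlj
      have h1 : R / 4 < ‖b j - b l - rd (b j - b l)‖ := by
        have := hsep j hj l (Finset.mem_range.1 hl) (Ne.symm hlj) (rd (b j - b l)) (rd_isZ _)
        linarith
      exact (hfar l (b j) h1).eq_of_nhds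
    · intro h
      exact absurd (Finset.mem_range.2 hj) h

end Pool.Agent.H63.CF
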