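import Pool.Agent.H63.CF.Defs
import Pool.Agent.H63.CF.Chain
import Pool.Agent.H63.CF.Per
import Pool.Agent.H88.SK.Torus
import Pool.Agent.H91.TC.All

/-! Conservative forced maps (problem MP_43af95_an): assembly. -/

set_option autoImplicit false

open MeasureTheory Set Filter Topology Function
open scoped ContDiff

namespace Pool.Agent.H63.CF

open Pool.Agent.H88.SK (X V pr pr_open cc)

theorem pm_surj {m : ℕ} (y : Tm m) : ∃ s : Fin m → ℝ, pm s = y := by
  have h : ∀ i, ∃ t : ℝ, (t : UnitAddCircle) = y i := fun i => QuotientAddGroup.mk_surjective (y i)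
  choose s hs using h
  exact ⟨s, funext hs⟩

theorem pm_eq_iff {m : ℕ} (s t : Fin m → ℝ) : pm s = pm t ↔ IsZ (s - t) := by
  constructor
  · intro h i
    obtain ⟨n, hn⟩ := (cc _ _).1 (congrFun h i)
    exact ⟨n, by rw [Pi.sub_apply, hn]; ring⟩
  · intro h
    funext i
    obtain ⟨n, hn⟩ := h i
    exact (cc _ _).2 ⟨n, by rw [Pi.sub_apply] at hn; linarith⟩

theorem pr_pm {k m : ℕ} (p : V k m) : pr k m p = (pm p.1, pm p.2) := rfl

theorem cont_of_Cr {r k m : ℕ} {f : X k m → X k m} (h : IsCr r k m f) : Continuous f := by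
  obtain ⟨F, hF, hf⟩ := h
  rw [pr_open.isQuotientMap.continuous_iff]
  have h1 : f ∘ pr k m = pr k m ∘ F := funext hf
  rw [h1]
  exact pr_open.continuous.comp hF.continuous

/-- the fibre maps -/
noncomputable def gb {r k m : ℕ} {f : Equiv.Perm (X k m)} {α : Tm k} (hf : Diffr r k m f)
    (hF : Forced k m f α) (b : Tm k) : Tm m ≃ₜ Tm m where
  toFun y := (f (b, y)).2
  invFun y := (f.symm (b + α, y)).2
  left_inv y := by
    have h1 : (b + α, (f (b, y)).2) = f (b, y) := Prod.ext (hF.base (b, y)).symm rfl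
    show (f.symm (b + α, (f (b, y)).2)).2 = y
    rw [h1, Equiv.symm_apply_apply]
  right_inv y := by
    have h1 : f (f.symm (b + α, y)) = (b + α, y) := Equiv.apply_symm_apply _ _
    have h2 : (f.symm (b + α, y)).1 = b := by
      have h3 := hF.base (f.symm (b + α, y))
      rw [h1] at h3
      exact (add_right_cancel h3).symm
    have h4 : (b, (f.symm (b + α, y)).2) = f.symm (b + α, y) := Prod.ext h2.symm rfl
    show (f (b, (f.symm (b + α, y)).2)).2 = y
    rw [h4, h1]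
  continuous_toFun := continuous_snd.comp ((cont_of_Cr hf.1).comp (by fun_prop))
  continuous_invFun := continuous_snd.comp ((cont_of_Cr hf.2).comp (by fun_prop))

theorem gb_apply {r k m : ℕ} {f : Equiv.Perm (X k m)} {α : Tm k} (hf : Diffr r k m f)
    (hF : Forced k m f α) (b : Tm k) (y : Tm m) : gb hf hF b y = (f (b, y)).2 := rfl

open Pool.Agent.H88.CL (E Lat)

theorem euc_le {k : ℕ} (v : E k) : ‖v‖ ≤ k * ‖(fun i => v i : Fin k → ℝ)‖ := by
  have h1 : ‖v‖ ≤ ∑ i, ‖v i‖ := by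
    rw [EuclideanSpace.norm_eq, Real.sqrt_le_left (Finset.sum_nonneg fun i _ => norm_nonneg _)]
    exact Finset.sum_sq_le_sq_sum_of_nonneg fun i _ => norm_nonneg _
  refine h1.trans ?_
  calc ∑ i, ‖v i‖ ≤ ∑ _i : Fin k, ‖(fun i => v i : Fin k → ℝ)‖ :=
        Finset.sum_le_sum fun i _ => norm_le_pi_norm (fun i => v i : Fin k → ℝ) i
    _ = k * ‖(fun i => v i : Fin k → ℝ)‖ := by
        rw [Finset.sum_const, Finset.card_univ, Fintype.card_fin, nsmul_eq_mul]

/-- the choice of the rational translation, in the sup norm -/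
theorem arith (k : ℕ) (hk : 3 ≤ k) (η : ℝ) (hη : 0 < η) : ∃ (c : ℝ) (m0 : ℕ), 0 < c ∧ ∀ q ≥ m0,
    ∀ R : ℝ, 0 ≤ R → (q : ℝ) * R ^ k ≤ c → ∀ α β : Fin k → ℝ, ∃ a : Fin k → ℝ, (∀ i, |a i| ≤ η) ∧
      IsZ ((q : ℝ) • (α + a) - β) ∧ ∀ l : ℕ, 0 < l → l < q → ∀ z, IsZ z →
        R / k ≤ ‖(l : ℝ) • (α + a) - z‖ := by
  obtain ⟨c, m0, hc, h⟩ := Pool.Agent.H91.TC.b_NT k hk η hη
  refine ⟨c, m0, hc, ?_⟩
  intro q hq R hR hqR α β
  have hk0 : (0:ℝ) < k := by
    have : 0 < k := by omega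
    exact_mod_cast this
  let toE : (Fin k → ℝ) → E k := fun v => WithLp.toLp 2 v
  obtain ⟨w, hw, hwq, hwl⟩ := h q hq R (Finset.Ioo 0 q) hR
    (fun l hl => by rw [Finset.mem_Ioo] at hl; exact hl)
    (by
      refine le_trans ?_ hqR
      apply mul_le_mul_of_nonneg_right _ (by positivity)
      rw [Nat.card_Ioo]
      have : q - 0 - 1 ≤ q := by omega
      exact_mod_cast this)
    (fun l => if l = q then toE ((q : ℝ) • α - β) else toE ((l : ℝ) • α))
  refine ⟨fun i => w i, fun i => ?_, ?_, ?_⟩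
  · rw [← Real.norm_eq_abs]
    exact (PiLp.norm_apply_le w i).trans hw
  · intro i
    obtain ⟨n, hn⟩ := hwq i
    simp only [if_true] at hn
    refine ⟨n, ?_⟩
    rw [← hn]
    simp only [toE, Pi.sub_apply, Pi.smul_apply, Pi.add_apply, PiLp.add_apply, PiLp.smul_apply,
      smul_eq_mul]
    ring
  · intro l hl0 hlq z hz
    have h1 := hwl l (Finset.mem_Ioo.2 ⟨hl0, hlq⟩) (toE z) (fun i => by
      obtain ⟨n, hn⟩ := hz i
      exact ⟨n, by simp only [toE]; exact hn⟩)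
    have hne : l ≠ q := hlq.ne
    simp only [hne, if_false] at h1
    have h2 := euc_le ((l : ℝ) • w + toE ((l : ℝ) • α) - toE z)
    have h3 : (fun i => ((l : ℝ) • w + toE ((l : ℝ) • α) - toE z) i : Fin k → ℝ) =
        (l : ℝ) • (α + fun i => w i) - z := by
      funext i
      simp only [toE, Pi.sub_apply, Pi.smul_apply, Pi.add_apply, PiLp.add_apply, PiLp.smul_apply,
        PiLp.sub_apply, smul_eq_mul]
      ring
    rw [h3] at h2
    rw [div_le_iff₀ hk0]
    linarith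

/-- numbers -/
theorem exists_t (m r k : ℕ) (hr : r < k) (A c : ℝ) (hc : 0 < c) (m0 : ℕ) : ∃ t : ℕ,
    m0 ≤ 2 ^ (t * (2 * r + 2)) ∧ A ≤ 2 ^ t ∧
    2 + 4 * 2 ^ (t * (2 * r + 1)) * (m * (t * (2 * r + 1))) ≤ 2 ^ (t * (2 * r + 2)) ∧
    ((2 ^ (t * (2 * r + 2)) : ℕ) : ℝ) * (min 1 c / 4 ^ t) ^ k ≤ c := by
  obtain ⟨nA, hnA⟩ := exists_nat_ge A
  obtain ⟨t, ht⟩ : ∃ t : ℕ, t = m0 + nA + (4 * (m * (2 * r + 1)) + 4) := ⟨_, rfl⟩
  have htt : t < 2 ^ t := Nat.lt_two_pow_self
  have hsq : t * t ≤ 2 ^ t := by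
    have h4 : 4 ≤ t := by omega
    have : ∀ n : ℕ, 4 ≤ n → n * n ≤ 2 ^ n := by
      intro n hn
      induction n, hn using Nat.le_induction with
      | base => norm_num
      | succ n hn ih =>
        rw [pow_succ]
        nlinarith
    exact this t h4
  have e1 : t * (2 * r + 2) = t + t * (2 * r + 1) := by ring
  have hpow : (2:ℕ) ^ (t * (2 * r + 2)) = 2 ^ t * 2 ^ (t * (2 * r + 1)) := by
    rw [e1, pow_add]
  have h1p : 1 ≤ 2 ^ (t * (2 * r + 1)) := Nat.one_le_two_pow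
  refine ⟨t, ?_, ?_, ?_, ?_⟩
  · rw [hpow]
    calc m0 ≤ 2 ^ t * 1 := by omega
      _ ≤ _ := Nat.mul_le_mul_left _ h1p
  · have h2 : (nA : ℝ) ≤ 2 ^ t := by
      have : nA ≤ 2 ^ t := by omega
      exact_mod_cast this
    linarith
  · rw [hpow]
    have h2 : 4 * (m * (t * (2 * r + 1))) + 2 ≤ t * t := by
      have h3 : 4 * (m * (2 * r + 1)) + 4 ≤ t := by omega
      have h4 : (4 * (m * (2 * r + 1)) + 4) * t ≤ t * t := Nat.mul_le_mul_right t h3
      have h5 : 4 * (m * (t * (2 * r + 1))) = 4 * (m * (2 * r + 1)) * t := by ring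
      have h6 : 1 ≤ t := by omega
      nlinarith
    have h7 : 4 * (m * (t * (2 * r + 1))) + 2 ≤ 2 ^ t := h2.trans hsq
    have h8 : (4 * (m * (t * (2 * r + 1))) + 2) * 2 ^ (t * (2 * r + 1)) ≤
        2 ^ t * 2 ^ (t * (2 * r + 1)) := Nat.mul_le_mul_right _ h7
    have h9 : (4 * (m * (t * (2 * r + 1))) + 2) * 2 ^ (t * (2 * r + 1)) =
        4 * 2 ^ (t * (2 * r + 1)) * (m * (t * (2 * r + 1))) + 2 * 2 ^ (t * (2 * r + 1)) := by
      ring
    omega
  · have hx0 : 0 ≤ min 1 c / 4 ^ t := by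
      have : 0 < min 1 c := lt_min one_pos hc
      positivity
    have hmin : min 1 c / 4 ^ t ≤ 1 := by
      rw [div_le_one (by positivity)]
      exact (min_le_left _ _).trans (one_le_pow₀ (by norm_num))
    have h2 : (min 1 c / 4 ^ t) ^ k ≤ (min 1 c / 4 ^ t) ^ (r + 1) :=
      pow_le_pow_of_le_one hx0 hmin hr
    have h3 : ((2 ^ (t * (2 * r + 2)) : ℕ) : ℝ) = (4 ^ t) ^ (r + 1) := by
      push_cast
      rw [← pow_mul]
      have : (4:ℝ) = 2 ^ 2 := by norm_num
      rw [this, ← pow_mul]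
      congr 1
      ring
    rw [h3]
    calc ((4:ℝ) ^ t) ^ (r + 1) * (min 1 c / 4 ^ t) ^ k
        ≤ ((4:ℝ) ^ t) ^ (r + 1) * (min 1 c / 4 ^ t) ^ (r + 1) :=
          mul_le_mul_of_nonneg_left h2 (by positivity)
      _ = (min 1 c) ^ (r + 1) := by
          rw [← mul_pow]
          congr 1
          field_simp
      _ ≤ min 1 c := by
          apply pow_le_of_le_one (lt_min one_pos hc).le (min_le_left _ _)
          omega
      _ ≤ c := min_le_right _ _

/-- the translation part of the perturbation -/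
noncomputable def tau {k m : ℕ} (α a : Tm k) (U : Tm k → Tm m) : Equiv.Perm (X k m) where
  toFun z := (z.1 + a, z.2 + U (z.1 - α))
  invFun z := (z.1 - a, z.2 - U (z.1 - a - α))
  left_inv z := by
    refine Prod.ext ?_ ?_
    · simp
    · simp
  right_inv z := by
    refine Prod.ext ?_ ?_
    · simp
    · simp

/-- **The closing and connecting lemma.** -/
theorem main (r k m : ℕ) (hk : 3 ≤ k) (hr : r < k) (f : Equiv.Perm (X k m)) (hf : Diffr r k m f)
    (α : Fin k → UnitAddCircle) (hF : Forced k m f α) (x x' : X k m) (η : ℝ) (hη : 0 < η) :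
    ∃ (a : Fin k → ℝ) (v : (Fin k → ℝ) → (Fin m → ℝ)) (g : Equiv.Perm (X k m)),
      ‖a‖ ≤ η ∧ Force r k m η v ∧ Diffr r k m g ∧
      (∀ p, g (pr k m p) = f (pr k m p) + pr k m (a, v p.1)) ∧
      ∃ n : ℕ, 1 ≤ n ∧ (g ^ n) x = x' := by
  have hk0 : (0:ℝ) < k := by
    have : 0 < k := by omega
    exact_mod_cast this
  have hk1 : (1:ℝ) ≤ k := by
    have : 1 ≤ k := by omega
    exact_mod_cast this
  obtain ⟨α', hα'⟩ := pm_surj α
  obtain ⟨β, hβ⟩ := pm_surj x.1
  obtain ⟨β', hβ'⟩ := pm_surj x'.1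
  obtain ⟨C, hC1, hC⟩ := exists_force k m r
  obtain ⟨c, m0, hc, hA⟩ := arith k hk η hη
  have hc1 : 0 < min 1 c := lt_min one_pos hc
  obtain ⟨t, ht0, ht1, ht2, ht3⟩ := exists_t m r k hr (C * (k / min 1 c) ^ r / η) c hc m0
  obtain ⟨q, hq⟩ : ∃ q : ℕ, q = 2 ^ (t * (2 * r + 2)) := ⟨_, rfl⟩
  obtain ⟨N, hN⟩ : ∃ N : ℕ, N = 2 ^ (t * (2 * r + 1)) := ⟨_, rfl⟩
  obtain ⟨R, hR⟩ : ∃ R : ℝ, R = min 1 c / 4 ^ t := ⟨_, rfl⟩
  rw [← hq] at ht0 ht2 ht3
  rw [← hN] at ht2
  rw [← hR] at ht3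
  have hR0 : 0 < R := by rw [hR]; positivity
  have hR1 : R ≤ 1 := by
    rw [hR, div_le_one (by positivity)]
    exact (min_le_left _ _).trans (one_le_pow₀ (by norm_num))
  have hN1 : 1 ≤ N := by rw [hN]; exact Nat.one_le_two_pow
  have hNR : (1:ℝ) ≤ N := by exact_mod_cast hN1
  obtain ⟨a, ha, haq, hal⟩ := hA q ht0 R hR0.le ht3 α' (β' - β)
  -- the base orbit
  obtain ⟨b, hb⟩ : ∃ b : ℕ → Fin k → ℝ, b = fun j : ℕ => β + (j : ℝ) • (α' + a) := ⟨_, rfl⟩
  have hbs : ∀ j, b (j + 1) = b j + (α' + a) := by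
    intro j
    rw [hb]
    funext i
    simp only [Pi.add_apply, Pi.smul_apply, smul_eq_mul]
    push_cast
    ring
  have hsep1 : ∀ j l, j < q → l < j → ∀ z, IsZ z → R / k ≤ ‖b j - b l - z‖ := by
    intro j l hj hl z hz
    have h1 : b j - b l - z = ((j - l : ℕ) : ℝ) • (α' + a) - z := by
      rw [hb]
      funext i
      simp only [Pi.add_apply, Pi.smul_apply, Pi.sub_apply, smul_eq_mul]
      rw [Nat.cast_sub hl.le]
      ring
    rw [h1]
    exact hal (j - l) (by omega) (by omega) z hz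
  have hsep : ∀ j < q, ∀ l < q, j ≠ l → ∀ z, IsZ z → R / k ≤ ‖b j - b l - z‖ := by
    intro j hj l hl hne z hz
    rcases lt_or_gt_of_ne hne with h | h
    · have h1 := hsep1 l j hl h (-z) hz.neg
      have h2 : b j - b l - z = -(b l - b j - -z) := by abel
      rw [h2, norm_neg]
      exact h1
    · exact hsep1 j l hj h z hz
  -- the chain
  obtain ⟨w, hw, hwq⟩ := chain (fun j => gb hf hF (pm (b j)))
    (fun j => hF.cons (pm (b j))) N (m * (t * (2 * r + 1))) q hN1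
    (by
      rw [hN, ← pow_mul]
      apply Nat.pow_le_pow_right (by norm_num)
      apply le_of_eq
      ring) ht2 x.2 x'.2
  -- the force
  obtain ⟨v, hv1, hv2, hv3, hv4⟩ := hC q b w (R / k) (1 / N) (by positivity)
    (by rw [div_le_one hk0]; linarith) (by positivity) hsep hw
  have hsmall : C * (R / k)⁻¹ ^ r * (1 / N) ≤ η := by
    have h1 : (R / k)⁻¹ ^ r = (k / min 1 c) ^ r * 4 ^ (t * r) := by
      rw [hR, pow_mul, ← mul_pow]
      congr 1
      field_simp
    have h2 : (N : ℝ) = 2 ^ t * 4 ^ (t * r) := by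
      rw [hN]
      push_cast
      have h3 : (4:ℝ) = 2 ^ 2 := by norm_num
      rw [h3, ← pow_mul, ← pow_add]
      congr 1
      ring
    rw [h1, h2, div_le_iff₀ hη] at *
    have h4 : C * ((k / min 1 c) ^ r * 4 ^ (t * r)) * (1 / (2 ^ t * 4 ^ (t * r))) =
        C * (k / min 1 c) ^ r / 2 ^ t := by
      field_simp
    rw [h4, div_le_iff₀ (by positivity)]
    linarith
  have hForce : Force r k m η v := ⟨hv1, hv2, fun i hi y => (hv3 i hi y).trans hsmall⟩
  -- the function on the torus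
  obtain ⟨U, hU⟩ : ∃ U : Tm k → Tm m, ∀ p, U (pm p) = pm (v p) := by
    choose rep hrep using fun y : Tm k => pm_surj y
    refine ⟨fun y => pm (v (rep y)), fun p => ?_⟩
    have h1 : IsZ (rep (pm p) - p) := (pm_eq_iff _ _).1 (hrep (pm p))
    have h2 : rep (pm p) = p + (rep (pm p) - p) := by abel
    show pm (v (rep (pm p))) = pm (v p)
    rw [h2, hv2 p _ h1]
  obtain ⟨F, hFc, hFl⟩ := hf.1
  obtain ⟨F', hF'c, hF'l⟩ := hf.2
  obtain ⟨g, hg⟩ : ∃ g : Equiv.Perm (X k m), g = f.trans (tau α (pm a) U) := ⟨_, rfl⟩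
  have hgz : ∀ z, g z = (z.1 + α + pm a, (f z).2 + U z.1) := by
    intro z
    rw [hg]
    show ((f z).1 + pm a, (f z).2 + U ((f z).1 - α)) = _
    rw [hF.base, add_sub_cancel_right]
  have hgp : ∀ p, g (pr k m p) = f (pr k m p) + pr k m (a, v p.1) := by
    intro p
    rw [hgz]
    refine Prod.ext ?_ ?_
    · show (pr k m p).1 + α + pm a = (f (pr k m p)).1 + pm a
      rw [hF.base]
    · show (f (pr k m p)).2 + U (pm p.1) = (f (pr k m p)).2 + pm (v p.1)
      rw [hU]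
  have hvr : ContDiff ℝ r v := hv1.of_le (by exact_mod_cast le_top)
  refine ⟨a, v, g, (pi_norm_le_iff_of_nonneg hη.le).2 fun i => ha i, hForce,
    ⟨⟨fun p => F p + (a, v p.1), ?_, ?_⟩,
      ⟨fun p => F' (p.1 - a, p.2 - v (p.1 - a - α')), ?_, ?_⟩⟩, hgp, q, ?_, ?_⟩
  · exact hFc.add (contDiff_const.prodMk (hvr.comp contDiff_fst))
  · intro p
    rw [hgp, hFl, ← Pool.Agent.H88.SK.pr_add]
  · exact hF'c.comp ((contDiff_fst.sub contDiff_const).prodMk
      (contDiff_snd.sub (hvr.comp ((contDiff_fst.sub contDiff_const).sub contDiff_const))))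
  · intro p
    rw [← hF'l, hg]
    show f.symm ((tau α (pm a) U).symm (pr k m p)) = _
    congr 1
    show (pm p.1 - pm a, pm p.2 - U (pm p.1 - pm a - α)) = _
    have h1 : pm p.1 - pm a = pm (p.1 - a) := by
      rw [sub_eq_add_neg, sub_eq_add_neg, pm_add, pm_neg]
    have h2 : pm (p.1 - a) - α = pm (p.1 - a - α') := by
      rw [← hα', sub_eq_add_neg, sub_eq_add_neg (p.1 - a), pm_add, pm_neg]
    rw [h1, h2, hU]
    refine Prod.ext rfl ?_
    show pm p.2 - pm (v (p.1 - a - α')) = pm (p.2 - v (p.1 - a - α'))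
    rw [sub_eq_add_neg, sub_eq_add_neg p.2, pm_add, pm_neg]
  · rw [hq]; exact Nat.one_le_two_pow
  · have hit : ∀ j, j ≤ q → (g ^ j) x =
        (pm (b j), orb (fun j => gb hf hF (pm (b j))) w 0 x.2 j) := by
      intro j
      induction j with
      | zero =>
        intro _
        refine Prod.ext ?_ rfl
        show x.1 = pm (b 0)
        rw [hb, ← hβ]
        simp
      | succ j ih =>
        intro hj
        rw [pow_succ', Equiv.Perm.mul_apply, ih (by omega), hgz]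
        refine Prod.ext ?_ ?_
        · show pm (b j) + α + pm a = pm (b (j + 1))
          rw [hbs, pm_add, pm_add, hα', add_assoc]
        · show (f (pm (b j), orb (fun j => gb hf hF (pm (b j))) w 0 x.2 j)).2 + U (pm (b j)) =
            gb hf hF (pm (b (0 + j))) (orb (fun j => gb hf hF (pm (b j))) w 0 x.2 j) +
              pm (w (0 + j))
          rw [hU, hv4 j (by omega), zero_add]
          rfl
    rw [hit q le_rfl]
    refine Prod.ext ?_ hwq
    show pm (b q) = x'.1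
    rw [← hβ', pm_eq_iff]
    have h1 : b q - β' = (q : ℝ) • (α' + a) - (β' - β) := by
      rw [hb]
      simp only
      abel
    rw [h1]
    exact haq

end Pool.Agent.H63.CF
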