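import Pool.Agent.H88.SK.Defs

/-! Definitions for the closing and connecting lemma for conservative diffeomorphisms of
`T^k × T^m` over a translation of `T^k` (problem MP_43af95_an), in addition to those of
`Pool/Agent/H88/SK/Defs.lean`. -/

set_option autoImplicit false

open MeasureTheory Set Filter Topology Function
open scoped ContDiff

namespace Pool.Agent.H63.CF

open Pool.Agent.H88.SK (X V pr)

noncomputable section

/-- A map of the torus `T^k × T^m` of class `C^r`: it has a `C^r` lift. -/
def IsCr (r k m : ℕ) (f : X k m → X k m) : Prop :=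
  ∃ F : V k m → V k m, ContDiff ℝ r F ∧ ∀ p, f (pr k m p) = pr k m (F p)

/-- `C^r` diffeomorphisms of the torus (homeomorphisms if `r = 0`). -/
def Diffr (r k m : ℕ) (f : Equiv.Perm (X k m)) : Prop := IsCr r k m f ∧ IsCr r k m f.symm

/-- `f(b, y) = (b + α, g(b, y))`, where every map `g(b, ·)` of `T^m` preserves the Lebesgue
measure. -/
structure Forced (k m : ℕ) (f : Equiv.Perm (X k m)) (α : Fin k → UnitAddCircle) : Prop where
  base : ∀ z, (f z).1 = z.1 + α
  cons : ∀ b, MeasurePreserving (fun y : Fin m → UnitAddCircle => (f (b, y)).2) volume volume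

/-- The integer vectors. -/
def IsInt {k : ℕ} (z : Fin k → ℝ) : Prop := ∀ i, ∃ n : ℤ, z i = (n : ℝ)

/-- A small force: `v` is a smooth `ℤ^k`-periodic map `ℝ^k → ℝ^m`, bounded by `η` with all its
derivatives of order at most `r`. -/
structure Force (r k m : ℕ) (η : ℝ) (v : (Fin k → ℝ) → (Fin m → ℝ)) : Prop where
  smooth : ContDiff ℝ ∞ v
  periodic : ∀ x z, IsInt z → v (x + z) = v x
  small : ∀ i ≤ r, ∀ x, ‖iteratedFDeriv ℝ i v x‖ ≤ η

end

end Pool.Agent.H63.CF
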