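import Mathlib

/-! Conservative forced maps (problem MP_43af95_an): growth of sets of the torus under small
translations. -/

set_option autoImplicit false

open MeasureTheory Set Filter Topology Function

namespace Pool.Agent.H63.CF

/-- The torus. -/
abbrev Tm (m : ℕ) := Fin m → UnitAddCircle

instance instProbCircle : IsProbabilityMeasure (volume : Measure UnitAddCircle) :=
  ⟨UnitAddCircle.measure_univ⟩

instance instProbTorus (m : ℕ) : IsProbabilityMeasure (volume : Measure (Tm m)) := by
  rw [volume_pi]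
  infer_instance

/-- The projection of `ℝ^m` to the torus. -/
def pm {m : ℕ} (s : Fin m → ℝ) : Tm m := fun i => (s i : UnitAddCircle)

theorem pm_add {m : ℕ} (s t : Fin m → ℝ) : pm (s + t) = pm s + pm t := by
  funext i
  simp [pm]

theorem pm_neg {m : ℕ} (s : Fin m → ℝ) : pm (-s) = -pm s := by
  funext i
  simp [pm]

theorem pm_zero {m : ℕ} : pm (0 : Fin m → ℝ) = 0 := by
  funext i
  simp [pm]

/-- the mass gained by the translation by `θ` -/
noncomputable def gain {m : ℕ} (A : Set (Tm m)) (θ : Tm m) : ENNReal :=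
  volume ((fun y => θ + y) '' A \ A)

theorem image_eq {m : ℕ} (A : Set (Tm m)) (θ : Tm m) :
    (fun y => θ + y) '' A = {y | y - θ ∈ A} := by
  ext y
  constructor
  · rintro ⟨z, hz, rfl⟩
    show θ + z - θ ∈ A
    rwa [add_sub_cancel_left]
  · intro hy
    exact ⟨y - θ, hy, by simp⟩

theorem meas_image {m : ℕ} {A : Set (Tm m)} (hA : MeasurableSet A) (θ : Tm m) :
    MeasurableSet ((fun y => θ + y) '' A) := by
  rw [image_eq]
  exact (measurable_id.sub_const θ) hA

theorem vol_image {m : ℕ} (A : Set (Tm m)) (θ : Tm m) :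
    volume ((fun y => θ + y) '' A) = volume A := by
  rw [Set.image_add_left]
  exact measure_preimage_add _ _ _

theorem gain_add {m : ℕ} (A : Set (Tm m)) (θ θ' : Tm m) :
    gain A (θ + θ') ≤ gain A θ + gain A θ' := by
  unfold gain
  have h1 : (fun y => θ + θ' + y) '' A \ A ⊆
      ((fun y => θ + y) '' ((fun y => θ' + y) '' A \ A)) ∪ ((fun y => θ + y) '' A \ A) := by
    rintro y ⟨⟨z, hz, rfl⟩, hy⟩
    by_cases h : θ' + z ∈ A
    · right
      exact ⟨⟨θ' + z, h, by show θ + (θ' + z) = θ + θ' + z; rw [add_assoc]⟩, hy⟩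
    · left
      exact ⟨θ' + z, ⟨⟨z, hz, rfl⟩, h⟩, by show θ + (θ' + z) = θ + θ' + z; rw [add_assoc]⟩
  refine (measure_mono h1).trans ((measure_union_le _ _).trans ?_)
  rw [vol_image, add_comm]

theorem gain_nsmul {m : ℕ} (A : Set (Tm m)) (θ : Tm m) (n : ℕ) :
    gain A (n • θ) ≤ n * gain A θ := by
  induction n with
  | zero =>
    have : gain A ((0:ℕ) • θ) = 0 := by
      unfold gain
      rw [zero_nsmul]
      simp
    rw [this]
    simp
  | succ n ih =>
    rw [succ_nsmul]
    refine (gain_add A _ _).trans ?_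
    push_cast
    rw [add_mul, one_mul]
    exact add_le_add ih le_rfl

/-- the mean of the gain -/
theorem gain_mean {m : ℕ} {A : Set (Tm m)} (hA : MeasurableSet A) :
    ∫⁻ θ : Tm m, gain A θ = volume A * volume Aᶜ := by
  have h1 : ∀ θ : Tm m, gain A θ =
      ∫⁻ y : Tm m, A.indicator 1 y * Aᶜ.indicator 1 (θ + y) := by
    intro θ
    have hm : MeasurableSet (A ∩ {y | θ + y ∈ Aᶜ}) :=
      hA.inter ((measurable_id.const_add θ) hA.compl)
    have h0 : gain A θ = volume (A ∩ {y | θ + y ∈ Aᶜ}) := by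
      unfold gain
      rw [← vol_image (A ∩ {y | θ + y ∈ Aᶜ}) θ]
      congr 1
      ext y
      constructor
      · rintro ⟨⟨z, hz, rfl⟩, hy⟩
        exact ⟨z, ⟨hz, hy⟩, rfl⟩
      · rintro ⟨z, ⟨hz, hz2⟩, rfl⟩
        exact ⟨⟨z, hz, rfl⟩, hz2⟩
    rw [h0, ← lintegral_indicator_one hm]
    congr 1
    funext y
    by_cases hy : y ∈ A
    · by_cases hy2 : θ + y ∈ A
      · simp [hy, hy2]
      · simp [hy, hy2]
    · simp [hy]
  simp_rw [h1]
  have e1 : Measurable (Aᶜ.indicator (1 : Tm m → ENNReal)) :=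
    measurable_one.indicator hA.compl
  have e2 : Measurable (A.indicator (1 : Tm m → ENNReal)) := measurable_one.indicator hA
  have hf : Measurable (fun p : Tm m × Tm m => A.indicator (1 : Tm m → ENNReal) p.2 *
      Aᶜ.indicator 1 (p.1 + p.2)) :=
    (e2.comp measurable_snd).mul (e1.comp (measurable_fst.add measurable_snd))
  rw [lintegral_lintegral_swap hf.aemeasurable]
  have h2 : ∀ y : Tm m, ∫⁻ θ : Tm m, A.indicator (1 : Tm m → ENNReal) y *
      Aᶜ.indicator 1 (θ + y) = A.indicator 1 y * volume Aᶜ := by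
    intro y
    have e3 : Measurable (fun θ : Tm m => Aᶜ.indicator (1 : Tm m → ENNReal) (θ + y)) :=
      e1.comp (measurable_id.add measurable_const)
    rw [lintegral_const_mul _ e3]
    congr 1
    rw [lintegral_add_right_eq_self (fun z => Aᶜ.indicator (1 : Tm m → ENNReal) z) y,
      lintegral_indicator_one hA.compl]
  simp_rw [h2]
  rw [lintegral_mul_const _ e2, lintegral_indicator_one hA]

/-- a small translation which gains mass -/
theorem exists_gain {m : ℕ} {A : Set (Tm m)} (hA : MeasurableSet A) (N : ℕ) (hN : 1 ≤ N) :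
    ∃ s : Fin m → ℝ, (∀ i, |s i| ≤ 1 / N) ∧ volume A * volume Aᶜ ≤ N * gain A (pm s) := by
  have hN0 : (0:ℝ) < N := by exact_mod_cast hN
  obtain ⟨θ, hθ⟩ : ∃ θ : Tm m, volume A * volume Aᶜ ≤ gain A θ := by
    by_contra hne
    push Not at hne
    have h1 := gain_mean hA
    have h2 : ∫⁻ θ : Tm m, gain A θ < ∫⁻ _ : Tm m, volume A * volume Aᶜ := by
      have hfin : ∫⁻ θ : Tm m, gain A θ ≠ ⊤ := by
        rw [h1]
        exact ENNReal.mul_ne_top (measure_ne_top _ _) (measure_ne_top _ _)
      have hae : (volume : Measure (Tm m)) ≠ 0 := IsProbabilityMeasure.ne_zero _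
      exact lintegral_strict_mono hae aemeasurable_const hfin (Eventually.of_forall hne)
    rw [h1, lintegral_const, measure_univ, mul_one] at h2
    exact lt_irrefl _ h2
  have hrep : ∀ i, ∃ t : ℝ, 0 ≤ t ∧ t < 1 ∧ (t : UnitAddCircle) = θ i := by
    intro i
    obtain ⟨t, ht, ht2⟩ := AddCircle.eq_coe_Ico (θ i)
    exact ⟨t, ht.1, ht.2, ht2⟩
  choose t ht0 ht1 htθ using hrep
  refine ⟨fun i => t i / N, fun i => ?_, ?_⟩
  · rw [abs_of_nonneg (div_nonneg (ht0 i) hN0.le)]
    exact div_le_div_of_nonneg_right (ht1 i).le hN0.le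
  · have h1 : θ = N • pm (fun i => t i / N) := by
      funext i
      rw [← htθ i]
      show _ = N • ((t i / N : ℝ) : UnitAddCircle)
      rw [← AddCircle.coe_nsmul, nsmul_eq_mul]
      congr 1
      field_simp
    rw [h1] at hθ
    exact hθ.trans (gain_nsmul A _ N)

/-- real form: one step of the growth -/
theorem grow_step {m : ℕ} {A : Set (Tm m)} (hA : MeasurableSet A) (N : ℕ) (hN : 1 ≤ N) :
    ∃ s : Fin m → ℝ, (∀ i, |s i| ≤ 1 / N) ∧
      volume.real A + volume.real A * (1 - volume.real A) / N ≤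
        volume.real (A ∪ (fun y => pm s + y) '' A) := by
  have hN0 : (0:ℝ) < N := by exact_mod_cast hN
  obtain ⟨s, hs, hg⟩ := exists_gain hA N hN
  refine ⟨s, hs, ?_⟩
  have hM := meas_image hA (pm s)
  have h1 : A ∪ (fun y => pm s + y) '' A = A ∪ ((fun y => pm s + y) '' A \ A) := by
    rw [union_sdiff_self]
  rw [h1, measureReal_union disjoint_sdiff_right (hM.diff hA)]
  have h2 : volume.real A * (1 - volume.real A) ≤
      N * volume.real ((fun y => pm s + y) '' A \ A) := by
    have h3 : volume.real Aᶜ = 1 - volume.real A := by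
      rw [measureReal_compl hA]
      simp
    rw [← h3]
    have h4 := ENNReal.toReal_mono (ENNReal.mul_ne_top (ENNReal.natCast_ne_top N)
      (measure_ne_top _ _)) hg
    rw [ENNReal.toReal_mul, ENNReal.toReal_mul, ENNReal.toReal_natCast] at h4
    exact h4
  have h5 : volume.real A * (1 - volume.real A) / N ≤
      volume.real ((fun y => pm s + y) '' A \ A) := by
    rw [div_le_iff₀ hN0]
    linarith
  linarith

end Pool.Agent.H63.CF
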